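import Pool.Agent.Helper48.OT.Comb
import Pool.Agent.Helper71.AA.Crit
import Pool.Agent.Helper71.TfExotic

/-!
# The eigenvalues of an ordinary abelian variety of dimension at most three
-/

set_option autoImplicit false

namespace Pool.Agent.Helper48.OT

open Module Polynomial Pool.Agent.Helper71.AA Pool.Agent.Helper71.AA.Div


/-- `z` is a root of the polynomial, in the pair `j`. -/
def Rt {g : ℕ} (α : Fin g → ℂ) (z : ℂ) : Prop := ∃ j, z = α j ∨ z = (starRingEnd ℂ) (α j)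

lemma Rt.conj {g : ℕ} {α : Fin g → ℂ} {z : ℂ} (h : Rt α z) : Rt α ((starRingEnd ℂ) z) := by
  obtain ⟨j, rfl | rfl⟩ := h
  · exact ⟨j, Or.inr rfl⟩
  · exact ⟨j, Or.inl (Complex.conj_conj _)⟩

/-- `z` lies in the ideal. -/
def In (P : Ideal (integralClosure ℤ ℂ)) (z : ℂ) : Prop := ∃ h : IsIntegral ℤ z, (⟨z, h⟩ : (integralClosure ℤ ℂ)) ∈ P

/-- An ordinary polynomial with its roots. -/
structure Ord (q g : ℕ) (P : ℤ[X]) (α : Fin g → ℂ) : Prop where
  two_le : 2 ≤ q
  norm : ∀ i, α i * (starRingEnd ℂ) (α i) = q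
  roots : P.map (Int.castRingHom ℂ) =
    ∏ i, ((X - C (α i)) * (X - C ((starRingEnd ℂ) (α i))))
  coprime : IsCoprime (P.coeff g) (q : ℤ)

section

variable {q g : ℕ} {P : ℤ[X]} {α : Fin g → ℂ} (hO : Ord q g P α)

include hO

lemma Ord.q0 : (q : ℂ) ≠ 0 := by
  have h1 := hO.two_le
  have : q ≠ 0 := by omega
  exact_mod_cast this

lemma Ord.mul_conj {z : ℂ} (hz : Rt α z) : z * (starRingEnd ℂ) z = q := by
  obtain ⟨j, rfl | rfl⟩ := hz
  · exact hO.norm j
  · rw [Complex.conj_conj, mul_comm]; exact hO.norm j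

lemma Ord.monic : P.Monic := by
  have h1 : (P.map (Int.castRingHom ℂ)).Monic := by
    rw [hO.roots]
    exact monic_prod_of_monic _ _ fun i _ => (monic_X_sub_C _).mul (monic_X_sub_C _)
  exact Polynomial.monic_of_injective (RingHom.injective_int (Int.castRingHom ℂ)) h1

lemma Ord.isRoot {z : ℂ} (hz : Rt α z) : (P.map (Int.castRingHom ℂ)).eval z = 0 := by
  obtain ⟨j, hj⟩ := hz
  rw [hO.roots, eval_prod]
  refine Finset.prod_eq_zero (Finset.mem_univ j) ?_
  rw [eval_mul, eval_sub, eval_sub, eval_X, eval_C, eval_C]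
  rcases hj with h | h
  · rw [h]; ring
  · rw [h]; ring

lemma Ord.integral {z : ℂ} (hz : Rt α z) : IsIntegral ℤ z :=
  ⟨P, hO.monic, by rw [← Polynomial.eval_map]; exact hO.isRoot hz⟩

/-- At every prime over `q` exactly one of `z`, `q / z` lies in the prime. -/
lemma Ord.not_both {z : ℂ} (hz : Rt α z) {I : Ideal (integralClosure ℤ ℂ)} (hI : I.IsPrime) (hq : (q : (integralClosure ℤ ℂ)) ∈ I) :
    ¬ (In I z ∧ In I ((starRingEnd ℂ) z)) := by
  have hint : ∀ i, IsIntegral ℤ (α i) := fun i => hO.integral ⟨i, Or.inl rfl⟩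
  have hint' : ∀ i, IsIntegral ℤ ((starRingEnd ℂ) (α i)) := fun i => hO.integral ⟨i, Or.inr rfl⟩
  let a : Fin g → (integralClosure ℤ ℂ) := fun i => ⟨α i, hint i⟩
  let b : Fin g → (integralClosure ℤ ℂ) := fun i => ⟨(starRingEnd ℂ) (α i), hint' i⟩
  have hab : ∀ i, a i * b i = (q : (integralClosure ℤ ℂ)) := by
    intro i
    apply Subtype.ext
    push_cast
    exact hO.norm i
  have hP : P.map (Int.castRingHom (integralClosure ℤ ℂ)) = ∏ i, ((X - C (a i)) * (X - C (b i))) := by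
    apply Polynomial.map_injective (algebraMap (integralClosure ℤ ℂ) ℂ) Subtype.val_injective
    rw [Polynomial.map_map, Polynomial.map_prod]
    rw [show (algebraMap (integralClosure ℤ ℂ) ℂ).comp (Int.castRingHom (integralClosure ℤ ℂ)) = Int.castRingHom ℂ from
      RingHom.ext_int _ _, hO.roots]
    refine Finset.prod_congr rfl fun i _ => ?_
    rw [Polynomial.map_mul, Polynomial.map_sub, Polynomial.map_sub, Polynomial.map_X,
      Polynomial.map_C, Polynomial.map_C]
    rfl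
  obtain ⟨j, hj⟩ := hz
  have hu := unit_pattern hab hP hO.coprime I hq j
  rintro ⟨⟨h1, h1'⟩, h2, h2'⟩
  apply hu
  rcases hj with h | h
  · subst h
    exact ⟨h1', h2'⟩
  · subst h
    refine ⟨?_, h1'⟩
    have : (⟨(starRingEnd ℂ) ((starRingEnd ℂ) (α j)), h2⟩ : (integralClosure ℤ ℂ)) = a j :=
      Subtype.ext (Complex.conj_conj _)
    rwa [this] at h2'

lemma Ord.one {z : ℂ} (hz : Rt α z) {I : Ideal (integralClosure ℤ ℂ)} (hI : I.IsPrime) (hq : (q : (integralClosure ℤ ℂ)) ∈ I) :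
    In I z ∨ In I ((starRingEnd ℂ) z) := by
  have h1 := hO.integral hz
  have h2 := hO.integral hz.conj
  have h3 : (⟨z, h1⟩ : (integralClosure ℤ ℂ)) * ⟨(starRingEnd ℂ) z, h2⟩ = (q : (integralClosure ℤ ℂ)) := by
    apply Subtype.ext
    push_cast
    exact hO.mul_conj hz
  rw [← h3] at hq
  rcases hI.mem_or_mem hq with h | h
  · exact Or.inl ⟨h1, h⟩
  · exact Or.inr ⟨h2, h⟩

omit hO in
/-- The conjugate ideal. -/
lemma exists_conj_ideal {I : Ideal (integralClosure ℤ ℂ)} (hI : I.IsPrime) (hq : (q : (integralClosure ℤ ℂ)) ∈ I) :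
    ∃ J : Ideal (integralClosure ℤ ℂ), J.IsPrime ∧ (q : (integralClosure ℤ ℂ)) ∈ J ∧ ∀ z, In J z ↔ In I ((starRingEnd ℂ) z) := by
  let c : (integralClosure ℤ ℂ) →+* (integralClosure ℤ ℂ) :=
    { toFun := fun x => ⟨(starRingEnd ℂ) (x : ℂ), x.2.map (starRingEnd ℂ).toIntAlgHom⟩
      map_one' := Subtype.ext (by simp)
      map_mul' := fun x y => Subtype.ext (by simp)
      map_zero' := Subtype.ext (by simp)
      map_add' := fun x y => Subtype.ext (by simp) }
  refine ⟨I.comap c, Ideal.IsPrime.comap c, ?_, fun z => ?_⟩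
  · rw [Ideal.mem_comap]
    have : c (q : (integralClosure ℤ ℂ)) = (q : (integralClosure ℤ ℂ)) := by simp
    rwa [this]
  · constructor
    · rintro ⟨h1, h2⟩
      exact ⟨h1.map (starRingEnd ℂ).toIntAlgHom, h2⟩
    · rintro ⟨h1, h2⟩
      have h3 : IsIntegral ℤ z := by
        have := h1.map (starRingEnd ℂ).toIntAlgHom
        have h4 : (starRingEnd ℂ).toIntAlgHom ((starRingEnd ℂ) z) = z := Complex.conj_conj z
        rwa [h4] at this
      exact ⟨h3, h2⟩

omit hO in
lemma exists_prime (hq : 2 ≤ q) : ∃ I : Ideal (integralClosure ℤ ℂ), I.IsPrime ∧ (q : (integralClosure ℤ ℂ)) ∈ I := by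
  have h1 : Ideal.span {(q : (integralClosure ℤ ℂ))} ≠ ⊤ := by
    intro h
    rw [Ideal.eq_top_iff_one, Ideal.mem_span_singleton'] at h
    obtain ⟨z, hz⟩ := h
    refine not_integral_inv hq z ?_
    have := congrArg (fun x : (integralClosure ℤ ℂ) => (x : ℂ)) hz
    push_cast at this
    rw [mul_comm]; exact this
  obtain ⟨M, hM, hle⟩ := Ideal.exists_le_maximal _ h1
  exact ⟨M, hM.isPrime, hle (Ideal.mem_span_singleton_self _)⟩

/-- If no prime over `q` contains the conjugates of both `z` and `w`, then `z w / q` is an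
algebraic integer. -/
lemma Ord.integral_two {z w : ℂ} (hz : Rt α z) (hw : Rt α w)
    (h : ∀ I : Ideal (integralClosure ℤ ℂ), I.IsPrime → (q : (integralClosure ℤ ℂ)) ∈ I →
      ¬ (In I ((starRingEnd ℂ) z) ∧ In I ((starRingEnd ℂ) w))) :
    IsIntegral ℤ (z * w / q) := by
  let z' : (integralClosure ℤ ℂ) := ⟨_, hO.integral hz.conj⟩
  let w' : (integralClosure ℤ ℂ) := ⟨_, hO.integral hw.conj⟩
  let z0 : (integralClosure ℤ ℂ) := ⟨z, hO.integral hz⟩
  let w0 : (integralClosure ℤ ℂ) := ⟨w, hO.integral hw⟩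
  have hzz : z0 * z' = (q : (integralClosure ℤ ℂ)) := by
    apply Subtype.ext; push_cast; exact hO.mul_conj hz
  have h1 : Ideal.span {z', w'} = ⊤ := by
    by_contra hne
    obtain ⟨M, hM, hle⟩ := Ideal.exists_le_maximal _ hne
    have h2 : z' ∈ M := hle (Ideal.subset_span (by simp))
    have h3 : w' ∈ M := hle (Ideal.subset_span (by simp))
    refine h M hM.isPrime ?_ ⟨⟨_, h2⟩, ⟨_, h3⟩⟩
    rw [← hzz]
    exact M.mul_mem_left _ h2
  rw [Ideal.eq_top_iff_one, Ideal.mem_span_pair] at h1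
  obtain ⟨u, v, huv⟩ := h1
  have h2 : z * w / q = (u : ℂ) * w + v * z := by
    rw [div_eq_iff hO.q0]
    have h3 : (u : ℂ) * (starRingEnd ℂ) z + v * (starRingEnd ℂ) w = 1 := by
      have := congrArg (fun x : (integralClosure ℤ ℂ) => (x : ℂ)) huv
      push_cast at this
      exact this
    have h4 := hO.mul_conj hz
    have h5 := hO.mul_conj hw
    calc z * w = z * w * ((u : ℂ) * (starRingEnd ℂ) z + v * (starRingEnd ℂ) w) := by
          rw [h3, mul_one]
      _ = u * w * (z * (starRingEnd ℂ) z) + v * z * (w * (starRingEnd ℂ) w) := by ring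
      _ = _ := by rw [h4, h5]; ring
  rw [h2]
  exact (u.2.mul (hO.integral hw)).add (v.2.mul (hO.integral hz))

/-- The same for three eigenvalues. -/
lemma Ord.integral_three {z w x : ℂ} (hz : Rt α z) (hw : Rt α w) (hx : Rt α x)
    (h : ∀ I : Ideal (integralClosure ℤ ℂ), I.IsPrime → (q : (integralClosure ℤ ℂ)) ∈ I →
      ¬ (In I ((starRingEnd ℂ) z) ∧ In I ((starRingEnd ℂ) w) ∧ In I ((starRingEnd ℂ) x))) :
    IsIntegral ℤ (z * w * x / q) := by
  let z' : (integralClosure ℤ ℂ) := ⟨_, hO.integral hz.conj⟩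
  let w' : (integralClosure ℤ ℂ) := ⟨_, hO.integral hw.conj⟩
  let x' : (integralClosure ℤ ℂ) := ⟨_, hO.integral hx.conj⟩
  let z0 : (integralClosure ℤ ℂ) := ⟨z, hO.integral hz⟩
  have hzz : z0 * z' = (q : (integralClosure ℤ ℂ)) := by
    apply Subtype.ext; push_cast; exact hO.mul_conj hz
  have h1 : Ideal.span {z', w', x'} = ⊤ := by
    by_contra hne
    obtain ⟨M, hM, hle⟩ := Ideal.exists_le_maximal _ hne
    have h2 : z' ∈ M := hle (Ideal.subset_span (by simp))
    have h3 : w' ∈ M := hle (Ideal.subset_span (by simp))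
    have h4 : x' ∈ M := hle (Ideal.subset_span (by simp))
    refine h M hM.isPrime ?_ ⟨⟨_, h2⟩, ⟨_, h3⟩, ⟨_, h4⟩⟩
    rw [← hzz]
    exact M.mul_mem_left _ h2
  rw [Ideal.eq_top_iff_one, Ideal.mem_span_insert] at h1
  obtain ⟨u, y, hy, huy⟩ := h1
  rw [Ideal.mem_span_pair] at hy
  obtain ⟨v, t, rfl⟩ := hy
  have h2 : z * w * x / q = (u : ℂ) * (w * x) + v * (z * x) + t * (z * w) := by
    rw [div_eq_iff hO.q0]
    have h3 : (u : ℂ) * (starRingEnd ℂ) z + (v * (starRingEnd ℂ) w + t * (starRingEnd ℂ) x)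
        = 1 := by
      have := congrArg (fun x : (integralClosure ℤ ℂ) => (x : ℂ)) huy
      push_cast at this
      exact this.symm
    have h4 := hO.mul_conj hz
    have h5 := hO.mul_conj hw
    have h6 := hO.mul_conj hx
    calc z * w * x = z * w * x * ((u : ℂ) * (starRingEnd ℂ) z +
          (v * (starRingEnd ℂ) w + t * (starRingEnd ℂ) x)) := by
          rw [h3, mul_one]
      _ = u * (w * x) * (z * (starRingEnd ℂ) z) + v * (z * x) * (w * (starRingEnd ℂ) w) +
          t * (z * w) * (x * (starRingEnd ℂ) x) := by ring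
      _ = _ := by rw [h4, h5, h6]; ring
  rw [h2]
  have iz := hO.integral hz
  have iw := hO.integral hw
  have ix := hO.integral hx
  exact ((u.2.mul (iw.mul ix)).add (v.2.mul (iz.mul ix))).add (t.2.mul (iz.mul iw))

/-- The six (or less) roots as a family. -/
def lam0 {g : ℕ} (α : Fin g → ℂ) (i : Fin g × Bool) : ℂ :=
  if i.2 then (starRingEnd ℂ) (α i.1) else α i.1

lemma Ord.prod_lam0 : ∏ i, (X - C (lam0 α i)) = P.map (Int.castRingHom ℂ) := by
  rw [hO.roots, Fintype.prod_prod_type]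
  refine Finset.prod_congr rfl fun i _ => ?_
  rw [Fintype.prod_bool]
  simp only [lam0, if_true, Bool.false_eq_true, if_false]
  exact mul_comm _ _

omit hO in
lemma rt_lam0 (i : Fin g × Bool) : Rt α (lam0 α i) := by
  obtain ⟨j, b⟩ := i
  cases b
  · exact ⟨j, Or.inl (by simp [lam0])⟩
  · exact ⟨j, Or.inr (by simp [lam0])⟩

omit hO in
lemma exists_lam0 {z : ℂ} (hz : Rt α z) : ∃ i, lam0 α i = z := by
  obtain ⟨j, rfl | rfl⟩ := hz
  · exact ⟨(j, false), by simp [lam0]⟩
  · exact ⟨(j, true), by simp [lam0]⟩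

lemma Ord.norm_lam0 (i : Fin g × Bool) : ‖lam0 α i‖ ^ 2 = (q : ℝ) := by
  have h1 := hO.mul_conj (rt_lam0 (α := α) i)
  rw [Complex.mul_conj, Complex.normSq_eq_norm_sq] at h1
  exact_mod_cast h1

/-- Kronecker. -/
lemma Ord.kron {z w : ℂ} (hz : Rt α z) (hw : Rt α w) (h : IsIntegral ℤ (z * w / q)) :
    ∃ m : ℕ, 0 < m ∧ (z * w) ^ m = (q : ℂ) ^ m := by
  obtain ⟨i, rfl⟩ := exists_lam0 hz
  obtain ⟨j, rfl⟩ := exists_lam0 hw
  obtain ⟨L, hfin, hgal, hL⟩ := Pool.Agent.Helper71.TfField.exists_field hO.prod_lam0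
  have hq : q ≠ 0 := by have := hO.two_le; omega
  refine Pool.Agent.Helper71.TfField.kronecker hO.prod_lam0 hL hq hO.norm_lam0 i j ?_
  rw [← isIntegral_algebraMap_iff (algebraMap L ℂ).injective, map_div₀, map_mul, map_natCast]
  exact h

/-- No eigenvalue is `√q` up to a root of unity. -/
lemma Ord.not_sq {z : ℂ} (hz : Rt α z) {m : ℕ} (hm : 0 < m) : (z * z) ^ m ≠ (q : ℂ) ^ m := by
  intro h
  obtain ⟨I, hI, hq⟩ := exists_prime hO.two_le
  refine hO.not_both hz hI hq ?_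
  have h1 : In I z := by
    refine ⟨hO.integral hz, hI.mem_of_pow_mem (2 * m) ?_⟩
    have : (⟨z, hO.integral hz⟩ : (integralClosure ℤ ℂ)) ^ (2 * m) = (q : (integralClosure ℤ ℂ)) ^ m := by
      apply Subtype.ext
      push_cast
      rw [← h]; ring
    rw [this]
    exact I.pow_mem_of_mem hq _ hm
  have h2 : ((starRingEnd ℂ) z * (starRingEnd ℂ) z) ^ m = (q : ℂ) ^ m := by
    have := congrArg (starRingEnd ℂ) h
    simpa using this
  refine ⟨h1, hO.integral hz.conj, hI.mem_of_pow_mem (2 * m) ?_⟩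
  have : (⟨(starRingEnd ℂ) z, hO.integral hz.conj⟩ : (integralClosure ℤ ℂ)) ^ (2 * m) = (q : (integralClosure ℤ ℂ)) ^ m := by
    apply Subtype.ext
    push_cast
    rw [← h2]; ring
  rw [this]
  exact I.pow_mem_of_mem hq _ hm

/-- Two eigenvalues which are not paired do not meet all primes over `q`. -/
lemma Ord.two_miss {z w : ℂ} (hz : Rt α z) (hw : Rt α w)
    (hp : ∀ m : ℕ, 0 < m → (z * w) ^ m ≠ (q : ℂ) ^ m) :
    ∃ I : Ideal (integralClosure ℤ ℂ), I.IsPrime ∧ (q : (integralClosure ℤ ℂ)) ∈ I ∧ ¬ In I z ∧ ¬ In I w := by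
  by_contra hcon
  push Not at hcon
  have hall : ∀ I : Ideal (integralClosure ℤ ℂ), I.IsPrime → (q : (integralClosure ℤ ℂ)) ∈ I → In I z ∨ In I w := by
    intro I hI hq
    by_contra h
    rw [not_or] at h
    exact h.2 (hcon I hI hq h.1)
  have hint : IsIntegral ℤ (z * w / q) := by
    refine hO.integral_two hz hw ?_
    rintro I hI hq ⟨h1, h2⟩
    rcases hall I hI hq with h | h
    · exact hO.not_both hz hI hq ⟨h, h1⟩
    · exact hO.not_both hw hI hq ⟨h, h2⟩
  obtain ⟨m, hm, h⟩ := hO.kron hz hw hint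
  exact hp m hm h

end

end Pool.Agent.Helper48.OT
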