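import Pool.Agent.Helper71.AA.Defs

/-!
# Divisor classes and elliptic classes on the powers of an abelian variety over a finite field
-/

set_option autoImplicit false

namespace Pool.Agent.Helper48.OT

open Module Polynomial Pool.Agent.Helper71.AA

variable {W : Type*} [AddCommGroup W] [Module ℂ W]

/-- The classes in `Λ³ W` killed by `F² - t q F + q³`, where `F` is the Frobenius on `Λ³ W`: the
part of `H³` on which Frobenius acts like `q` times the Frobenius of an elliptic curve over
`𝔽_q` of trace `t`, with characteristic polynomial `T² - t T + q`. -/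
noncomputable def ellipticPart (q : ℕ) (Φ : Module.End ℂ W) (t : ℤ) :
    Submodule ℂ (ExteriorAlgebra ℂ W) :=
  ⋀[ℂ]^3 W ⊓ LinearMap.ker ((ExteriorAlgebra.map Φ).toLinearMap ∘ₗ
    (ExteriorAlgebra.map Φ).toLinearMap - ((t : ℂ) * q) • (ExteriorAlgebra.map Φ).toLinearMap +
    (q : ℂ) ^ 3 • LinearMap.id)

/-- The elements of `Λⁱ W` in the span of the products `x₁ ⋯ x_ν w` where each `x_k` is a divisor
class or in the elliptic part. -/
noncomputable def ellipticConiveau (q : ℕ) (Φ : Module.End ℂ W) (t : ℤ) (i ν : ℕ) :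
    Submodule ℂ (ExteriorAlgebra ℂ W) :=
  ⋀[ℂ]^i W ⊓ Submodule.span ℂ {x | ∃ (d : Fin ν → ExteriorAlgebra ℂ W)
    (w : ExteriorAlgebra ℂ W), (∀ k, IsDivisorClass q Φ (d k) ∨ d k ∈ ellipticPart q Φ t) ∧
      x = (List.ofFn d).prod * w}

/-- A supersingular eigenvalue: `√q` times a root of unity. -/
def Ss (q : ℕ) (z : ℂ) : Prop := ∃ m : ℕ, 0 < m ∧ z ^ (2 * m) = (q : ℂ) ^ m

end Pool.Agent.Helper48.OT
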