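import Pool.Agent.Helper48.OT.Arith

/-!
# The Galois coniveau of all powers of an ordinary abelian variety of dimension at most three
-/

set_option autoImplicit false

namespace Pool.Agent.Helper48.OT

open Module Polynomial Pool.Agent.Helper71.AA Pool.Agent.Helper71.AA.Div


section

variable {q g : ℕ} {P : ℤ[X]} {α : Fin g → ℂ} (hO : Ord q g P α)

include hO

omit hO in
/-- The part of the product of the supersingular eigenvalues. -/
lemma ss_part {q : ℕ} {I : Type*} [DecidableEq I] {lam : I → ℂ} {R : Finset I}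
    (hR : ∀ i ∈ R, Ss q (lam i)) (hcard : R.card ≤ 1) :
    ∃ m e : ℕ, 0 < m ∧ e ≤ m ∧ (∏ i ∈ R, lam i) ^ (2 * m) = (q : ℂ) ^ e := by
  rcases Nat.eq_zero_or_pos R.card with h0 | h0
  · rw [Finset.card_eq_zero] at h0
    refine ⟨1, 0, one_pos, Nat.zero_le _, ?_⟩
    rw [h0, Finset.prod_empty, one_pow, pow_zero]
  · obtain ⟨k, hk⟩ := Finset.card_eq_one.1 (le_antisymm hcard h0)
    obtain ⟨m, hm, h⟩ := hR k (by rw [hk]; simp)
    refine ⟨m, m, hm, le_rfl, ?_⟩
    rw [hk, Finset.prod_singleton]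
    exact h

/-- A product divisible by `q` meets every prime over `q`. -/
lemma Ord.meets {I : Type*} [DecidableEq I] {lam : I → ℂ} {s T R : Finset I}
    (hT : ∀ i ∈ T, Rt α (lam i)) (hR : ∀ i ∈ R, Ss q (lam i)) (hcard : R.card ≤ 1)
    (hprod : (∏ i ∈ T, lam i) * ∏ i ∈ R, lam i = ∏ i ∈ s, lam i) {ν : ℕ}
    (hs : IsIntegral ℤ ((∏ i ∈ s, lam i) / (q : ℂ) ^ (ν + 1))) (J : Ideal (integralClosure ℤ ℂ)) (hJ : J.IsPrime)
    (hq : (q : (integralClosure ℤ ℂ)) ∈ J) : ∃ i ∈ T, In J (lam i) := by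
  obtain ⟨m, e, hm, he, hR2⟩ := ss_part hR hcard
  let A : (integralClosure ℤ ℂ) := ∏ i ∈ T.attach, ⟨lam i.1, hO.integral (hT i.1 i.2)⟩
  have hA : (A : ℂ) = ∏ i ∈ T, lam i := by
    simp only [A]
    push_cast
    exact Finset.prod_attach T lam
  let y : (integralClosure ℤ ℂ) := ⟨_, hs⟩
  have hq0 := hO.q0
  have hy : (y : ℂ) * (q : ℂ) ^ (ν + 1) = ∏ i ∈ s, lam i := by
    change (∏ i ∈ s, lam i) / (q : ℂ) ^ (ν + 1) * (q : ℂ) ^ (ν + 1) = _
    rw [div_mul_cancel₀ _ (pow_ne_zero _ hq0)]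
  have h1 : A ^ (2 * m) = (q : (integralClosure ℤ ℂ)) ^ (2 * m * (ν + 1) - e) * y ^ (2 * m) := by
    apply Subtype.ext
    push_cast
    rw [hA]
    have h2 : (q : ℂ) ^ e ≠ 0 := pow_ne_zero _ hq0
    apply mul_right_cancel₀ h2
    have he2 : e ≤ 2 * m * (ν + 1) := by nlinarith
    calc (∏ i ∈ T, lam i) ^ (2 * m) * (q : ℂ) ^ e
        = (∏ i ∈ s, lam i) ^ (2 * m) := by rw [← hR2, ← mul_pow, hprod]
      _ = ((y : ℂ) * (q : ℂ) ^ (ν + 1)) ^ (2 * m) := by rw [hy]
      _ = (q : ℂ) ^ (2 * m * (ν + 1)) * (y : ℂ) ^ (2 * m) := by ring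
      _ = (q : ℂ) ^ (2 * m * (ν + 1) - e) * (q : ℂ) ^ e * (y : ℂ) ^ (2 * m) := by
          rw [← pow_add, Nat.sub_add_cancel he2]
      _ = _ := by ring
  have h3 : A ∈ J := by
    refine hJ.mem_of_pow_mem (2 * m) ?_
    rw [h1]
    refine J.mul_mem_right _ (J.pow_mem_of_mem hq _ ?_)
    have : m * 1 ≤ m * (ν + 1) := Nat.mul_le_mul_left _ (by omega)
    have h4 : 2 * m * (ν + 1) = 2 * (m * (ν + 1)) := by ring
    omega
  rw [hJ.prod_mem_iff] at h3
  obtain ⟨i, -, hiJ⟩ := h3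
  exact ⟨i.1, i.2, _, hiJ⟩

/-- An unpaired set of eigenvalues meeting all primes over `q` consists of three eigenvalues, and
no two of them meet all primes. -/
lemma Ord.three (hg : g ≤ 3) (S : Finset ℂ) (hS : ∀ z ∈ S, Rt α z)
    (hp : ∀ z ∈ S, ∀ w ∈ S, ∀ m : ℕ, 0 < m → (z * w) ^ m ≠ (q : ℂ) ^ m)
    (hm : ∀ J : Ideal (integralClosure ℤ ℂ), J.IsPrime → (q : (integralClosure ℤ ℂ)) ∈ J → ∃ z ∈ S, In J z) :
    g = 3 ∧ S.card = 3 ∧ ∀ z ∈ S, ∃ J : Ideal (integralClosure ℤ ℂ), J.IsPrime ∧ (q : (integralClosure ℤ ℂ)) ∈ J ∧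
      ∀ w ∈ S, w ≠ z → ¬ In J w := by
  classical
  -- no two elements cover
  have h2 : ∀ z ∈ S, ∀ w ∈ S, ¬ S ⊆ {z, w} := by
    intro z hz w hw hsub
    obtain ⟨J, hJ, hq, h1, h3⟩ := hO.two_miss (hS z hz) (hS w hw) (hp z hz w hw)
    obtain ⟨x, hx, hxJ⟩ := hm J hJ hq
    have := hsub hx
    rw [Finset.mem_insert, Finset.mem_singleton] at this
    rcases this with rfl | rfl
    · exact h1 hxJ
    · exact h3 hxJ
  have hne : S.Nonempty := by
    obtain ⟨J, hJ, hq⟩ := exists_prime hO.two_le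
    obtain ⟨x, hx, -⟩ := hm J hJ hq
    exact ⟨x, hx⟩
  have hge : 3 ≤ S.card := by
    by_contra hlt
    push Not at hlt
    have hpos := hne.card_pos
    interval_cases hc : S.card
    · obtain ⟨z, hz⟩ := Finset.card_eq_one.1 hc
      exact h2 z (by rw [hz]; simp) z (by rw [hz]; simp) (by rw [hz]; simp)
    · obtain ⟨z, w, hzw, hz⟩ := Finset.card_eq_two.1 hc
      exact h2 z (by rw [hz]; simp) w (by rw [hz]; simp) (by rw [hz])
  have hle : S.card ≤ g := by
    have hFin : Nonempty (Fin g) := by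
      obtain ⟨z, hz⟩ := hne
      obtain ⟨j, -⟩ := hS z hz
      exact ⟨j⟩
    choose! j hj using hS
    have hinj : Set.InjOn j S := by
      intro z hz w hw hzw
      by_contra hne
      have h1 := hj z hz
      have h3 := hj w hw
      have hn := hO.norm (j w)
      rw [hzw] at h1
      generalize j w = l at h1 h3 hn
      have hmul : z * w = q := by
        rcases h1 with h1 | h1 <;> rcases h3 with h3 | h3
        · exact absurd (h1.trans h3.symm) hne
        · rw [h1, h3]; exact hn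
        · rw [h1, h3, mul_comm]; exact hn
        · exact absurd (h1.trans h3.symm) hne
      exact hp z hz w hw 1 one_pos (by rw [hmul])
    have := Finset.card_le_card_of_injOn j (fun z _ => Finset.mem_univ (j z)) hinj
    simpa using this
  refine ⟨by omega, by omega, fun z hz => ?_⟩
  have hc : (S.erase z).card = 2 := by
    rw [Finset.card_erase_of_mem hz]; omega
  obtain ⟨w, x, hwx, hE⟩ := Finset.card_eq_two.1 hc
  have hw : w ∈ S := Finset.mem_of_mem_erase (by rw [hE]; simp : w ∈ S.erase z)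
  have hx : x ∈ S := Finset.mem_of_mem_erase (by rw [hE]; simp : x ∈ S.erase z)
  obtain ⟨J, hJ, hq, h1, h3⟩ := hO.two_miss (hS w hw) (hS x hx) (hp w hw x hx)
  refine ⟨J, hJ, hq, fun y hy hyz => ?_⟩
  have : y ∈ S.erase z := Finset.mem_erase.2 ⟨hyz, hy⟩
  rw [hE, Finset.mem_insert, Finset.mem_singleton] at this
  rcases this with rfl | rfl
  · exact h1
  · exact h3

/-- The multiplicity of an eigenvalue which is alone at some prime. -/
lemma Ord.count {I : Type*} [DecidableEq I] {lam : I → ℂ} {s T R : Finset I}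
    (hT : ∀ i ∈ T, Rt α (lam i)) (hR : ∀ i ∈ R, Ss q (lam i)) (hcard : R.card ≤ 1)
    (hprod : (∏ i ∈ T, lam i) * ∏ i ∈ R, lam i = ∏ i ∈ s, lam i) {ν : ℕ}
    (hs : IsIntegral ℤ ((∏ i ∈ s, lam i) / (q : ℂ) ^ (ν + 1))) {J : Ideal (integralClosure ℤ ℂ)} (hJ : J.IsPrime)
    (hq : (q : (integralClosure ℤ ℂ)) ∈ J) {z : ℂ} (hz : Rt α z)
    (h : ∀ i ∈ T, lam i ≠ z → ¬ In J (lam i)) :
    ν + 1 ≤ (T.filter (fun i => lam i = z)).card := by
  classical
  by_contra hlt
  push Not at hlt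
  obtain ⟨m, e, hm, he, hR2⟩ := ss_part hR hcard
  set N := (T.filter (fun i => lam i = z)).card with hN
  have hT' : ∀ i ∈ T.filter (fun i => ¬ lam i = z), Rt α (lam i) := fun i hi =>
    hT i (Finset.mem_filter.1 hi).1
  let A : (integralClosure ℤ ℂ) := ∏ i ∈ (T.filter (fun i => ¬ lam i = z)).attach,
    ⟨lam i.1, hO.integral (hT' i.1 i.2)⟩
  have hA0 : (A : ℂ) = ∏ i ∈ T.filter (fun i => ¬ lam i = z), lam i := by
    simp only [A]
    push_cast
    exact Finset.prod_attach _ lam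
  have hA : A ∉ J := by
    intro hA
    rw [hJ.prod_mem_iff] at hA
    obtain ⟨i, -, hiJ⟩ := hA
    have hi := Finset.mem_filter.1 i.2
    exact h i.1 hi.1 hi.2 ⟨_, hiJ⟩
  let y : (integralClosure ℤ ℂ) := ⟨_, hs⟩
  let z' : (integralClosure ℤ ℂ) := ⟨_, hO.integral hz.conj⟩
  have hq0 := hO.q0
  have hy : (y : ℂ) * (q : ℂ) ^ (ν + 1) = ∏ i ∈ s, lam i := by
    change (∏ i ∈ s, lam i) / (q : ℂ) ^ (ν + 1) * (q : ℂ) ^ (ν + 1) = _
    rw [div_mul_cancel₀ _ (pow_ne_zero _ hq0)]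
  have hsplit : ∏ i ∈ T, lam i = z ^ N * A := by
    rw [hA0, ← Finset.prod_filter_mul_prod_filter_not T (fun i => lam i = z)]
    congr 1
    rw [Finset.prod_congr rfl (fun i hi => (Finset.mem_filter.1 hi).2), Finset.prod_const]
  have he3 : 2 * m * N + e + 1 ≤ 2 * m * (ν + 1) := by
    have h5 : m * N ≤ m * ν := Nat.mul_le_mul_left _ (by omega)
    have h6 : 2 * m * (ν + 1) = 2 * (m * ν) + 2 * m := by ring
    have h7 : 2 * m * N = 2 * (m * N) := by ring
    omega
  have h1 : A ^ (2 * m) = (q : (integralClosure ℤ ℂ)) ^ (2 * m * (ν + 1) - (2 * m * N + e)) *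
      (y ^ (2 * m) * z' ^ (2 * m * N)) := by
    apply Subtype.ext
    push_cast
    have h2 : (q : ℂ) ^ (2 * m * N + e) ≠ 0 := pow_ne_zero _ hq0
    apply mul_right_cancel₀ h2
    have h4 : z ^ (2 * m * N) * (z' : ℂ) ^ (2 * m * N) = (q : ℂ) ^ (2 * m * N) := by
      rw [← mul_pow, ← hO.mul_conj hz]
    calc (A : ℂ) ^ (2 * m) * (q : ℂ) ^ (2 * m * N + e)
        = (z ^ N * A) ^ (2 * m) * (q : ℂ) ^ e * (z' : ℂ) ^ (2 * m * N) := by
          rw [pow_add, ← h4]; ring
      _ = (∏ i ∈ s, lam i) ^ (2 * m) * (z' : ℂ) ^ (2 * m * N) := by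
          rw [← hR2, ← hsplit, ← mul_pow, hprod]
      _ = ((y : ℂ) * (q : ℂ) ^ (ν + 1)) ^ (2 * m) * (z' : ℂ) ^ (2 * m * N) := by rw [hy]
      _ = (q : ℂ) ^ (2 * m * (ν + 1)) * ((y : ℂ) ^ (2 * m) * (z' : ℂ) ^ (2 * m * N)) := by ring
      _ = (q : ℂ) ^ (2 * m * (ν + 1) - (2 * m * N + e)) * (q : ℂ) ^ (2 * m * N + e) *
          ((y : ℂ) ^ (2 * m) * (z' : ℂ) ^ (2 * m * N)) := by
          rw [← pow_add, Nat.sub_add_cancel (by omega)]
      _ = _ := by ring
  apply hA
  refine hJ.mem_of_pow_mem (2 * m) ?_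
  rw [h1]
  exact J.mul_mem_right _ (J.pow_mem_of_mem hq _ (by omega))

end

/-- Triples of different values with enough multiplicity. -/
lemma matchE_of_counts {I : Type*} [LinearOrder I] {q : ℕ} {t : ℤ} {lam : I → ℂ} {z w x : ℂ}
    (hzw : z ≠ w) (hzx : z ≠ x) (hwx : w ≠ x)
    (heq : (z * w * x) ^ 2 - t * q * (z * w * x) + (q : ℂ) ^ 3 = 0) (ν : ℕ) :
    ∀ s : Finset I, ν ≤ (s.filter (fun i => lam i = z)).card →
      ν ≤ (s.filter (fun i => lam i = w)).card → ν ≤ (s.filter (fun i => lam i = x)).card →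
      MatchE q t lam ν s := by
  induction ν with
  | zero => intro s _ _ _; trivial
  | succ ν ih =>
    intro s h1 h2 h3
    obtain ⟨a, ha⟩ := Finset.card_pos.1 (lt_of_lt_of_le (Nat.succ_pos ν) h1)
    obtain ⟨b, hb⟩ := Finset.card_pos.1 (lt_of_lt_of_le (Nat.succ_pos ν) h2)
    obtain ⟨c, hc⟩ := Finset.card_pos.1 (lt_of_lt_of_le (Nat.succ_pos ν) h3)
    rw [Finset.mem_filter] at ha hb hc
    have hab : a ≠ b := by rintro rfl; exact hzw (ha.2.symm.trans hb.2)
    have hac : a ≠ c := by rintro rfl; exact hzx (ha.2.symm.trans hc.2)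
    have hbc : b ≠ c := by rintro rfl; exact hwx (hb.2.symm.trans hc.2)
    have key : ∀ (u : ℂ) (d : I), lam d = u → d ∈ s → (∀ e ∈ ({a, b, c} : Finset I), lam e = u →
        e = d) → ν + 1 ≤ (s.filter (fun i => lam i = u)).card →
        ν ≤ ((s \ {a, b, c}).filter (fun i => lam i = u)).card := by
      intro u d hd hds hu hcard
      have hsub : (s.filter (fun i => lam i = u)).erase d ⊆
          (s \ {a, b, c}).filter (fun i => lam i = u) := by
        intro i hi
        rw [Finset.mem_erase, Finset.mem_filter] at hi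
        rw [Finset.mem_filter, Finset.mem_sdiff]
        refine ⟨⟨hi.2.1, fun h => hi.1 (hu i h hi.2.2)⟩, hi.2.2⟩
      have := Finset.card_le_card hsub
      rw [Finset.card_erase_of_mem (Finset.mem_filter.2 ⟨hds, hd⟩)] at this
      omega
    refine ⟨{a, b, c}, ?_, Or.inr ⟨?_, ?_⟩, ih _ ?_ ?_ ?_⟩
    · intro i hi
      simp only [Finset.mem_insert, Finset.mem_singleton] at hi
      rcases hi with rfl | rfl | rfl
      · exact ha.1
      · exact hb.1
      · exact hc.1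
    · exact Finset.card_eq_three.2 ⟨a, b, c, hab, hac, hbc, rfl⟩
    · rw [Finset.prod_insert (by simp [hab, hac]), Finset.prod_pair hbc, ha.2, hb.2, hc.2,
        ← mul_assoc]
      exact heq
    · refine key z a ha.2 ha.1 ?_ h1
      intro e he heu
      simp only [Finset.mem_insert, Finset.mem_singleton] at he
      rcases he with rfl | rfl | rfl
      · rfl
      · exact absurd (heu.symm.trans hb.2) hzw
      · exact absurd (heu.symm.trans hc.2) hzx
    · refine key w b hb.2 hb.1 ?_ h2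
      intro e he heu
      simp only [Finset.mem_insert, Finset.mem_singleton] at he
      rcases he with rfl | rfl | rfl
      · exact absurd (ha.2.symm.trans heu) hzw
      · rfl
      · exact absurd (heu.symm.trans hc.2) hwx
    · refine key x c hc.2 hc.1 ?_ h3
      intro e he heu
      simp only [Finset.mem_insert, Finset.mem_singleton] at he
      rcases he with rfl | rfl | rfl
      · exact absurd (ha.2.symm.trans heu) hzx
      · exact absurd (hb.2.symm.trans heu) hwx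
      · rfl

/-- The trace of the elliptic curve. -/
lemma exists_trace {q g : ℕ} (hq : IsPrimePow q) (hg : g ≤ 3) {P : ℤ[X]} {α : Fin g → ℂ}
    (hO : Ord q g P α) : ∃ t : ℤ, t ^ 2 ≤ 4 * (q : ℤ) ∧ ∀ z w x : ℂ, Rt α z → Rt α w → Rt α x →
      z ≠ w → z ≠ x → w ≠ x → (∀ m : ℕ, 0 < m → (z * w) ^ m ≠ (q : ℂ) ^ m) →
      (∀ m : ℕ, 0 < m → (z * x) ^ m ≠ (q : ℂ) ^ m) →
      (∀ m : ℕ, 0 < m → (w * x) ^ m ≠ (q : ℂ) ^ m) → g = 3 →
      IsIntegral ℤ (z * w * x / q) →
      (z * w * x) ^ 2 - t * q * (z * w * x) + (q : ℂ) ^ 3 = 0 := by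
  obtain ⟨p, a, hp, ha, rfl⟩ := hq
  have hp' : p.Prime := Nat.prime_iff.2 hp
  by_cases h3 : g = 3
  · subst h3
    have hrank : ¬ ((p : ℤ) ∣ P.coeff 4 ∧ (p : ℤ) ∣ P.coeff 3) := by
      rintro ⟨-, h⟩
      have h1 : (p : ℤ) ∣ ((p ^ a : ℕ) : ℤ) := by
        push_cast
        exact dvd_pow_self _ (by omega)
      have h2 := hO.coprime.isUnit_of_dvd' h h1
      rw [Int.isUnit_iff] at h2
      have := hp'.two_le
      omega
    obtain ⟨t, ht1, ht2⟩ := Pool.Agent.Helper71.TfExotic.exotic (I := Fin 3 × Bool)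
      (lam := lam0 α) (by simp) hO.prod_lam0 hp' hrank hO.norm_lam0
      (fun i => (i.1, !i.2)) (fun i => by simp) (fun i h => by
        have := congrArg Prod.snd h
        simp at this) (fun i => Or.inl (by
          obtain ⟨j, b⟩ := i
          cases b
          · simpa [lam0] using hO.norm j
          · simpa [lam0, mul_comm] using hO.norm j))
    refine ⟨t, ht1, ?_⟩
    intro z w x hz hw hx hzw hzx hwx p1 p2 p3 _ hint
    obtain ⟨i, rfl⟩ := exists_lam0 hz
    obtain ⟨j, rfl⟩ := exists_lam0 hw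
    obtain ⟨k, rfl⟩ := exists_lam0 hx
    have hprod : ∏ l, lam0 α (![i, j, k] l) = lam0 α i * lam0 α j * lam0 α k := by
      rw [Fin.prod_univ_three]
      rfl
    have h5 := ht2 ![i, j, k] ?_ ?_
    · rw [hprod] at h5
      exact h5
    · have q1 : ∀ m : ℕ, 0 < m → (lam0 α j * lam0 α i) ^ m ≠ ((p ^ a : ℕ) : ℂ) ^ m := by
        intro m hm; rw [mul_comm]; exact p1 m hm
      have q2 : ∀ m : ℕ, 0 < m → (lam0 α k * lam0 α i) ^ m ≠ ((p ^ a : ℕ) : ℂ) ^ m := by
        intro m hm; rw [mul_comm]; exact p2 m hm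
      have q3 : ∀ m : ℕ, 0 < m → (lam0 α k * lam0 α j) ^ m ≠ ((p ^ a : ℕ) : ℂ) ^ m := by
        intro m hm; rw [mul_comm]; exact p3 m hm
      intro l l' hll
      fin_cases l <;> fin_cases l' <;> simp only [ne_eq, not_true_eq_false] at hll
      · exact ⟨fun h => hzw (congrArg (lam0 α) h), p1⟩
      · exact ⟨fun h => hzx (congrArg (lam0 α) h), p2⟩
      · exact ⟨fun h => hzw (congrArg (lam0 α) h).symm, q1⟩
      · exact ⟨fun h => hwx (congrArg (lam0 α) h), p3⟩
      · exact ⟨fun h => hzx (congrArg (lam0 α) h).symm, q2⟩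
      · exact ⟨fun h => hwx (congrArg (lam0 α) h).symm, q3⟩
    · rw [hprod]
      exact hint
  · refine ⟨0, ?_, ?_⟩
    · positivity
    · intro z w x _ _ _ _ _ _ _ _ _ h
      exact absurd h h3

/-- Divisible products contain enough pieces. -/
lemma matchE_of_integral {q g : ℕ} (hg : g ≤ 3) {P : ℤ[X]} {α : Fin g → ℂ} (hO : Ord q g P α)
    {t : ℤ} (ht : ∀ z w x : ℂ, Rt α z → Rt α w → Rt α x →
      z ≠ w → z ≠ x → w ≠ x → (∀ m : ℕ, 0 < m → (z * w) ^ m ≠ (q : ℂ) ^ m) →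
      (∀ m : ℕ, 0 < m → (z * x) ^ m ≠ (q : ℂ) ^ m) →
      (∀ m : ℕ, 0 < m → (w * x) ^ m ≠ (q : ℂ) ^ m) → g = 3 →
      IsIntegral ℤ (z * w * x / q) →
      (z * w * x) ^ 2 - t * q * (z * w * x) + (q : ℂ) ^ 3 = 0)
    {I : Type*} [LinearOrder I] {lam : I → ℂ} (hlam : ∀ i, Rt α (lam i) ∨ Ss q (lam i)) (ν : ℕ) :
    ∀ s : Finset I, IsIntegral ℤ ((∏ i ∈ s, lam i) / (q : ℂ) ^ ν) → MatchE q t lam ν s := by
  classical
  induction ν with
  | zero => intro s _; trivial
  | succ ν ih =>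
    intro s hs
    by_cases h : ∀ i ∈ s, ∀ j ∈ s, ¬ Pair q lam i j
    · -- three values
      set T := s.filter (fun i => Rt α (lam i)) with hTdef
      set R := s.filter (fun i => ¬ Rt α (lam i)) with hRdef
      have hT : ∀ i ∈ T, Rt α (lam i) := fun i hi => (Finset.mem_filter.1 hi).2
      have hTs : ∀ i ∈ T, i ∈ s := fun i hi => (Finset.mem_filter.1 hi).1
      have hR : ∀ i ∈ R, Ss q (lam i) := fun i hi =>
        (hlam i).resolve_left (Finset.mem_filter.1 hi).2
      have hcardR : R.card ≤ 1 := by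
        rw [Finset.card_le_one]
        intro i hi j hj
        by_contra hij
        obtain ⟨m, hm, hmi⟩ := hR i hi
        obtain ⟨n, hn, hnj⟩ := hR j hj
        refine h i (Finset.mem_filter.1 hi).1 j (Finset.mem_filter.1 hj).1
          ⟨hij, 2 * (m * n), by positivity, ?_⟩
        calc (lam i * lam j) ^ (2 * (m * n))
            = (lam i ^ (2 * m)) ^ n * (lam j ^ (2 * n)) ^ m := by ring
          _ = (q : ℂ) ^ (2 * (m * n)) := by rw [hmi, hnj]; ring
      have hprod : (∏ i ∈ T, lam i) * ∏ i ∈ R, lam i = ∏ i ∈ s, lam i :=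
        Finset.prod_filter_mul_prod_filter_not s _ _
      set S := T.image lam with hSdef
      have hS : ∀ z ∈ S, Rt α z := by
        intro z hz
        obtain ⟨i, hi, rfl⟩ := Finset.mem_image.1 hz
        exact hT i hi
      have hp : ∀ z ∈ S, ∀ w ∈ S, ∀ m : ℕ, 0 < m → (z * w) ^ m ≠ (q : ℂ) ^ m := by
        intro z hz w hw m hm
        obtain ⟨i, hi, rfl⟩ := Finset.mem_image.1 hz
        obtain ⟨j, hj, rfl⟩ := Finset.mem_image.1 hw
        by_cases hij : i = j
        · rw [hij]; exact hO.not_sq (hT j hj) hm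
        · exact fun h1 => h i (hTs i hi) j (hTs j hj) ⟨hij, m, hm, h1⟩
      have hm : ∀ J : Ideal (integralClosure ℤ ℂ), J.IsPrime → (q : (integralClosure ℤ ℂ)) ∈ J → ∃ z ∈ S, In J z := by
        intro J hJ hq
        obtain ⟨i, hi, hiJ⟩ := hO.meets hT hR hcardR hprod hs J hJ hq
        exact ⟨lam i, Finset.mem_image_of_mem _ hi, hiJ⟩
      obtain ⟨hg3, hcard, halone⟩ := hO.three hg S hS hp hm
      obtain ⟨z, w, x, hzw, hzx, hwx, hSe⟩ := Finset.card_eq_three.1 hcard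
      have hz : z ∈ S := by rw [hSe]; simp
      have hw : w ∈ S := by rw [hSe]; simp
      have hx : x ∈ S := by rw [hSe]; simp
      have hcount : ∀ y ∈ S, ν + 1 ≤ (s.filter (fun i => lam i = y)).card := by
        intro y hy
        obtain ⟨J, hJ, hq, hJ2⟩ := halone y hy
        refine le_trans (hO.count hT hR hcardR hprod hs hJ hq (hS _ hy)
          (fun i hi hne => hJ2 _ (Finset.mem_image_of_mem _ hi) hne)) (Finset.card_le_card ?_)
        intro i hi
        rw [Finset.mem_filter] at hi ⊢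
        exact ⟨hTs i hi.1, hi.2⟩
      have hint : IsIntegral ℤ (z * w * x / q) := by
        refine hO.integral_three (hS z hz) (hS w hw) (hS x hx) ?_
        rintro J hJ hq ⟨h1, h2, h3⟩
        obtain ⟨y, hy, hyJ⟩ := hm J hJ hq
        rw [hSe, Finset.mem_insert, Finset.mem_insert, Finset.mem_singleton] at hy
        rcases hy with rfl | rfl | rfl
        · exact hO.not_both (hS _ hz) hJ hq ⟨hyJ, h1⟩
        · exact hO.not_both (hS _ hw) hJ hq ⟨hyJ, h2⟩
        · exact hO.not_both (hS _ hx) hJ hq ⟨hyJ, h3⟩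
      exact matchE_of_counts hzw hzx hwx
        (ht z w x (hS z hz) (hS w hw) (hS x hx) hzw hzx hwx (hp z hz w hw) (hp z hz x hx)
          (hp w hw x hx) hg3 hint) (ν + 1) s (hcount z hz) (hcount w hw) (hcount x hx)
    · push Not at h
      obtain ⟨i, hi, j, hj, hij⟩ := h
      obtain ⟨hne, m, hm, hmq⟩ := hij
      refine ⟨{i, j}, ?_, Or.inl ⟨Finset.card_pair hne, m, hm, ?_⟩, ih _ ?_⟩
      · intro x hx
        simp only [Finset.mem_insert, Finset.mem_singleton] at hx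
        rcases hx with rfl | rfl
        · exact hi
        · exact hj
      · rw [Finset.prod_pair hne]; exact hmq
      · refine IsIntegral.of_pow hm ?_
        rw [← pow_quot hO.q0 hi hj hne hmq]
        exact hs.pow m

/-- Products containing pieces are divisible. -/
lemma integral_of_matchE {q : ℕ} (hq : (q : ℂ) ≠ 0) {t : ℤ} {I : Type*} [LinearOrder I]
    {lam : I → ℂ} (hlam : ∀ i, IsIntegral ℤ (lam i)) (ν : ℕ) :
    ∀ s : Finset I, MatchE q t lam ν s → IsIntegral ℤ ((∏ i ∈ s, lam i) / (q : ℂ) ^ ν) := by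
  induction ν with
  | zero =>
    intro s _
    rw [pow_zero, div_one]
    exact IsIntegral.prod _ fun i _ => hlam i
  | succ ν ih =>
    rintro s ⟨r, hsub, hr, hM⟩
    have h1 : (∏ i ∈ s, lam i) / (q : ℂ) ^ (ν + 1) =
        ((∏ i ∈ r, lam i) / q) * ((∏ i ∈ s \ r, lam i) / (q : ℂ) ^ ν) := by
      rw [← Finset.prod_sdiff hsub, pow_succ]
      field_simp
    rw [h1]
    refine IsIntegral.mul ?_ (ih _ hM)
    rcases hr with ⟨-, m, hm, h2⟩ | ⟨-, h2⟩
    · refine IsIntegral.of_pow hm ?_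
      rw [div_pow, h2, div_self (pow_ne_zero _ hq)]
      exact isIntegral_one
    · set μ := ∏ i ∈ r, lam i with hμ
      have h4 : (μ / q) ^ 2 - t * (μ / q) + q = 0 := by
        have : (μ / q) ^ 2 - t * (μ / q) + q = (μ ^ 2 - t * q * μ + (q : ℂ) ^ 3) / q ^ 2 := by
          field_simp
        rw [this, h2, zero_div]
      refine ⟨X ^ 2 - C t * X + C (q : ℤ), ?_, ?_⟩
      · have : (X ^ 2 - C t * X + C (q : ℤ) : ℤ[X]) = X ^ 2 + (- (C t * X) + C (q : ℤ)) := by
          ring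
        rw [this]
        refine Polynomial.monic_X_pow_add ?_
        refine lt_of_le_of_lt (Polynomial.degree_add_le _ _) ?_
        refine max_lt ?_ ?_
        · rw [Polynomial.degree_neg]
          exact lt_of_le_of_lt (Polynomial.degree_C_mul_X_le _) (by norm_num)
        · exact lt_of_le_of_lt Polynomial.degree_C_le (by norm_num)
      · simp only [Polynomial.eval₂_add, Polynomial.eval₂_sub, Polynomial.eval₂_mul,
          Polynomial.eval₂_pow, Polynomial.eval₂_X, Polynomial.eval₂_C]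
        simpa using h4

/-- Supersingular eigenvalues have absolute value `√q`. -/
lemma ss_conj {q : ℕ} {z : ℂ} (h : Ss q z) : z * (starRingEnd ℂ) z = q := by
  obtain ⟨m, hm, h⟩ := h
  have h1 : (‖z‖ ^ 2) ^ m = (q : ℝ) ^ m := by
    have := congrArg norm h
    rw [norm_pow, norm_pow, Complex.norm_natCast] at this
    rw [← pow_mul]; exact this
  have h2 : ‖z‖ ^ 2 = (q : ℝ) :=
    (pow_left_inj₀ (by positivity) (by positivity) (by omega)).1 h1
  rw [Complex.mul_conj, Complex.normSq_eq_norm_sq, h2]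
  simp

lemma ss_integral {q : ℕ} {z : ℂ} (h : Ss q z) : IsIntegral ℤ z := by
  obtain ⟨m, hm, h⟩ := h
  refine IsIntegral.of_pow (n := 2 * m) (by omega) ?_
  rw [h]
  have h1 : IsIntegral ℤ (q : ℂ) := by
    have := isIntegral_algebraMap (R := ℤ) (A := ℂ) (x := (q : ℤ))
    simpa using this
  exact h1.pow m

theorem main (q g : ℕ) (hq : IsPrimePow q) (hg : g ≤ 3) (P : ℤ[X]) (hP : IsOrdinary q g P) :
    ∃ t : ℤ, t ^ 2 ≤ 4 * (q : ℤ) ∧ ∀ Q : ℤ[X], (∀ β : ℂ, aeval β Q = 0 → Ss q β) →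
      ∀ (V : Type) [AddCommGroup V] [Module ℂ V]
      [FiniteDimensional ℂ V] (F : Module.End ℂ V), F.IsSemisimple →
      F.charpoly = (P * Q).map (Int.castRingHom ℂ) → ∀ n i ν : ℕ, 2 * ν ≤ i →
      galoisConiveau q (F.compLeft (Fin n)) i ν =
        ellipticConiveau q (F.compLeft (Fin n)) t i ν := by
  classical
  obtain ⟨α, hα, hroots⟩ := hP.1.roots
  have hO : Ord q g P α := ⟨hq.two_le, hα, hroots, hP.2⟩
  obtain ⟨t, ht1, ht2⟩ := exists_trace hq hg hO
  refine ⟨t, ht1, ?_⟩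
  intro Q hQ V _ _ _ F hF hchar n i ν hν
  obtain ⟨d, b, lam, hb⟩ := eigenbasis F hF
  have hRt : ∀ k, Rt α (lam k) ∨ Ss q (lam k) := by
    intro k
    have h1 := (Module.End.hasEigenvalue_iff_isRoot_charpoly F _).1
      (hasEigenvalue_of_basis F b lam hb k)
    rw [hchar, Polynomial.map_mul, IsRoot.def, eval_mul, mul_eq_zero] at h1
    rcases h1 with h1 | h1
    · left
      rw [hroots, eval_prod, Finset.prod_eq_zero_iff] at h1
      obtain ⟨j, -, hj⟩ := h1
      rw [eval_mul, eval_sub, eval_sub, eval_X, eval_C, eval_C, mul_eq_zero, sub_eq_zero,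
        sub_eq_zero] at hj
      exact ⟨j, hj⟩
    · right
      refine hQ _ ?_
      rw [eval_map] at h1
      exact h1
  have hconj : ∀ k, lam k * (starRingEnd ℂ) (lam k) = q := fun k =>
    (hRt k).elim (fun h => hO.mul_conj h) ss_conj
  have hint : ∀ k, IsIntegral ℤ (lam k) := fun k =>
    (hRt k).elim (fun h => hO.integral h) ss_integral
  obtain ⟨N, e, B, hB⟩ := power_basis F b lam hb n
  rw [galois_eq B hO.q0 hB (fun k => hconj _) i ν hν, ellipticConiveau_eq B hB t i ν]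
  apply le_antisymm
  · refine Submodule.span_mono ?_
    rintro _ ⟨s, ⟨hs1, hs2⟩, rfl⟩
    exact ⟨s, ⟨hs1, matchE_of_integral hg hO ht2 (fun k => hRt _) ν s hs2⟩, rfl⟩
  · refine Submodule.span_mono ?_
    rintro _ ⟨s, ⟨hs1, hs2⟩, rfl⟩
    exact ⟨s, ⟨hs1, integral_of_matchE hO.q0 (fun k => hint _) ν s hs2⟩, rfl⟩

end Pool.Agent.Helper48.OT
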